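import Pool.Agent.H47.PL.Targets

/-!
MP_c62aed_lc, row MYO of the board pln_modules: the protocols.
-/

set_option autoImplicit false

namespace Pool.Agent.H74.PL

open Finset Pool.Agent.H97.RK Pool.Agent.H47.PL

namespace MYO

/-- the lists of length `D` with at most `e` entries `true` -/
def LB : ℕ → ℕ → Finset (List Bool)
  | 0, _ => {[]}
  | (D + 1), 0 => (LB D 0).image (List.cons false)
  | (D + 1), (e + 1) => (LB D (e + 1)).image (List.cons false) ∪ (LB D e).image (List.cons true)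

theorem mem_LB : ∀ (D e : ℕ) (β : List Bool), β.length = D → β.count true ≤ e → β ∈ LB D e := by
  intro D
  induction D with
  | zero =>
    intro e β h _
    rw [List.length_eq_zero_iff] at h
    rw [h]
    unfold LB
    exact Finset.mem_singleton_self _
  | succ D ih =>
    intro e β h hc
    cases β with
    | nil => simp at h
    | cons b β =>
      have h1 : β.length = D := by simpa using h
      cases e with
      | zero =>
        unfold LB
        cases b with
        | true => simp at hc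
        | false =>
          refine Finset.mem_image_of_mem _ (ih 0 β h1 ?_)
          simpa using hc
      | succ e =>
        unfold LB
        cases b with
        | true =>
          refine Finset.mem_union_right _ (Finset.mem_image_of_mem _ (ih e β h1 ?_))
          simpa using hc
        | false =>
          refine Finset.mem_union_left _ (Finset.mem_image_of_mem _ (ih (e + 1) β h1 ?_))
          simpa using hc

theorem len_LB : ∀ (D e : ℕ) (β : List Bool), β ∈ LB D e → β.length = D := by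
  intro D
  induction D with
  | zero =>
    intro e β h
    unfold LB at h
    rw [Finset.mem_singleton] at h
    rw [h]; rfl
  | succ D ih =>
    intro e β h
    cases e with
    | zero =>
      unfold LB at h
      rw [Finset.mem_image] at h
      obtain ⟨γ, hγ, rfl⟩ := h
      rw [List.length_cons, ih _ _ hγ]
    | succ e =>
      unfold LB at h
      rw [Finset.mem_union, Finset.mem_image, Finset.mem_image] at h
      rcases h with ⟨γ, hγ, rfl⟩ | ⟨γ, hγ, rfl⟩
      · rw [List.length_cons, ih _ _ hγ]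
      · rw [List.length_cons, ih _ _ hγ]

theorem bl_succ (D e : ℕ) : bl (D + 1) (e + 1) = bl D (e + 1) + bl D e := by
  unfold bl
  rw [Finset.sum_range_succ' _ (e + 1), Finset.sum_range_succ' (fun i => D.choose i) (e + 1)]
  simp only [Nat.choose_succ_succ, Finset.sum_add_distrib, Nat.choose_zero_right]
  ring

theorem card_LB : ∀ (D e : ℕ), (LB D e).card ≤ bl D e := by
  intro D
  induction D with
  | zero =>
    intro e
    unfold LB bl
    rw [Finset.card_singleton, Finset.sum_range_succ']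
    simp
  | succ D ih =>
    intro e
    cases e with
    | zero =>
      unfold LB
      refine Finset.card_image_le.trans ((ih 0).trans ?_)
      unfold bl
      simp
    | succ e =>
      unfold LB
      rw [bl_succ]
      refine (Finset.card_union_le _ _).trans (Nat.add_le_add ?_ ?_)
      · exact Finset.card_image_le.trans (ih _)
      · exact Finset.card_image_le.trans (ih _)

theorem bl_mono {D n : ℕ} (h : D ≤ n) (e : ℕ) : bl D e ≤ bl n e :=
  Finset.sum_le_sum fun _ _ => Nat.choose_le_choose _ h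

theorem cfi {α : Type} [Fintype α] {p q : α → Prop} {i1 : DecidablePred p} {i2 : DecidablePred q}
    (h : ∀ x, p x ↔ q x) :
    (@Finset.filter α p i1 univ).card = (@Finset.filter α q i2 univ).card := by
  refine congrArg Finset.card ?_
  ext x
  rw [Finset.mem_filter, Finset.mem_filter, h]

end MYO

open MYO

theorem pf_MYO (hPAD : T_PAD) (hWLK : T_WLK) (hKEY : T_KEY) (hPRS : T_PRS) (hEXC : T_EXC) :
    T_MYO := by
  classical
  intro n k m D e q N G Ex hD hN hG P hP
  obtain ⟨w, hw⟩ : ∃ w : Fml n k m → List Bool → Finset (Fin n × Bool),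
    w = fun F β => walk F (pad (P (vars F))) β ∅ := ⟨_, rfl⟩
  obtain ⟨hp1, hp2⟩ := hPRS n k m
  have hsub : (univ.filter fun p : Fml n k m × (Fin n → Bool) => Dist p.1 ∧ Sat p.1 p.2 ∧
      p.1 ∈ G ∧ FindP p.1 (Ex p.1) (P (vars p.1)) ∅) ⊆
      (univ.filter fun p : Fml n k m × (Fin n → Bool) => Dist p.1 ∧ Sat p.1 p.2 ∧
      (nsol p.1 : ℝ) ≤ N ∧ ∃ β ∈ LB D e, (w p.1 β).card = β.length ∧
        ∃ τ, Sat p.1 τ ∧ Agr τ (w p.1 β)) := by
    intro p hp
    rw [Finset.mem_filter] at hp ⊢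
    obtain ⟨_, h1, h2, h3, h4⟩ := hp
    obtain ⟨g1, Res, g2⟩ := hG p.1 h3
    have h5 := (hPAD n k m p.1 (Ex p.1) (P (vars p.1))).1 h4
    obtain ⟨β, b1, b2, b3, τ, b4, b5⟩ := hWLK n k m p.1 D e (Ex p.1) Res g2 hD _ h5
    refine ⟨Finset.mem_univ _, h1, h2, g1, β, mem_LB D e β b1 b2, ?_, τ, b4, ?_⟩
    · rw [hw, b1]; exact b3
    · rw [hw]; exact b5
  have h1 := hEXC n k m N (LB D e) w hN
  have h2 : ((univ.filter fun p : Fml n k m × (Fin n → Bool) => Dist p.1 ∧ Sat p.1 p.2 ∧
      p.1 ∈ G ∧ FindP p.1 (Ex p.1) (P (vars p.1)) ∅).card : ℝ) ≤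
      ((univ.filter fun p : Fml n k m × (Fin n → Bool) => Dist p.1 ∧ Sat p.1 p.2 ∧
      (nsol p.1 : ℝ) ≤ N ∧ ∃ β ∈ LB D e, (w p.1 β).card = β.length ∧
        ∃ τ, Sat p.1 τ ∧ Agr τ (w p.1 β)).card : ℝ) := by
    exact_mod_cast Finset.card_le_card hsub
  have h3 := h2.trans h1
  have hk1 : (1 : ℕ) ≤ 2 ^ k := Nat.one_le_two_pow
  have hX0 : (0 : ℝ) ≤ 1 - (1 / 2 : ℝ) ^ k := by
    have : (1 / 2 : ℝ) ^ k ≤ 1 := pow_le_one₀ (by norm_num) (by norm_num)
    linarith
  have hX : (0 : ℝ) ≤ 2 ^ D * (1 - (1 / 2 : ℝ) ^ k) ^ q :=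
    mul_nonneg (by positivity) (pow_nonneg hX0 _)
  have hconv : (1 - (1 / 2 : ℝ) ^ k) ^ q * 2 ^ (k * q) = (((2 ^ k - 1 : ℕ) : ℝ)) ^ q := by
    rw [Nat.cast_sub hk1, pow_mul, ← mul_pow]
    congr 1
    push_cast
    rw [sub_mul, one_mul, ← mul_pow]
    norm_num
  have h4 : ∀ β ∈ LB D e, ((univ.filter fun p : Fml n k m × (Fin n → Bool) =>
      Dist p.1 ∧ Sat p.1 p.2 ∧ (w p.1 β).card = β.length ∧ Agr p.2 (w p.1 β)).card : ℝ) *
      (2 ^ D * (1 - (1 / 2 : ℝ) ^ k) ^ q) ≤
      (univ.filter fun p : Fml n k m × (Fin n → Bool) => Dist p.1 ∧ Sat p.1 p.2).card := by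
    intro β hβ
    have hlen := len_LB D e β hβ
    have e1 := hp2 fun a => Sat a.1 a.2 ∧ (w a.1 β).card = β.length ∧ Agr a.2 (w a.1 β)
    have e2 : ∀ g : Fin m → Fin k → Fin n,
        (univ.filter fun x : (Fin m → Fin k → Bool) × (Fin n → Bool) =>
          (fun a : Fml n k m × (Fin n → Bool) => Sat a.1 a.2 ∧ (w a.1 β).card = β.length ∧
            Agr a.2 (w a.1 β)) (mk g x.1, x.2)).card * (2 ^ D * (2 ^ k - 1) ^ q) ≤
        2 ^ n * (2 ^ k - 1) ^ m * 2 ^ (k * q) := by
      intro g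
      have e3 := hKEY n k m g (pad (P g)) q β ((hPAD n k m (fun c i => (g c i, true)) (fun _ => True)
        (P g)).2 q (hP g))
      rw [hlen] at e3
      rw [hw, hlen]
      exact e3
    have e4 : (univ.filter fun p : Fml n k m × (Fin n → Bool) =>
        Dist p.1 ∧ Sat p.1 p.2 ∧ (w p.1 β).card = β.length ∧ Agr p.2 (w p.1 β)).card *
        (2 ^ D * (2 ^ k - 1) ^ q) ≤
        (univ.filter fun p : Fml n k m × (Fin n → Bool) => Dist p.1 ∧ Sat p.1 p.2).card *
          2 ^ (k * q) := by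
      have e1' : (univ.filter fun p : Fml n k m × (Fin n → Bool) =>
        Dist p.1 ∧ Sat p.1 p.2 ∧ (w p.1 β).card = β.length ∧ Agr p.2 (w p.1 β)).card = _ :=
        (cfi fun _ => Iff.rfl).trans e1
      rw [hp1, e1', Finset.sum_mul, mul_assoc]
      refine (Finset.sum_le_card_nsmul _ _ _ fun g _ => ?_).trans (le_of_eq (smul_eq_mul _ _))
      exact (le_of_eq (congrArg (· * (2 ^ D * (2 ^ k - 1) ^ q)) (cfi fun _ => Iff.rfl))).trans
        (e2 g)
    have e5 : (((univ.filter fun p : Fml n k m × (Fin n → Bool) =>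
        Dist p.1 ∧ Sat p.1 p.2 ∧ (w p.1 β).card = β.length ∧ Agr p.2 (w p.1 β)).card *
        (2 ^ D * (2 ^ k - 1) ^ q) : ℕ) : ℝ) ≤
        (((univ.filter fun p : Fml n k m × (Fin n → Bool) => Dist p.1 ∧ Sat p.1 p.2).card *
          2 ^ (k * q) : ℕ) : ℝ) := by exact_mod_cast e4
    rw [Nat.cast_mul, Nat.cast_mul, Nat.cast_mul, Nat.cast_pow ((2 ^ k - 1 : ℕ)), ← hconv] at e5
    have e6 : (0 : ℝ) < 2 ^ (k * q) := by positivity
    refine le_of_mul_le_mul_right ?_ e6
    refine le_trans (le_of_eq ?_) (e5.trans (le_of_eq ?_))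
    · push_cast
      ring
    · push_cast
      ring
  have h5 : (∑ β ∈ LB D e, ((univ.filter fun p : Fml n k m × (Fin n → Bool) =>
      Dist p.1 ∧ Sat p.1 p.2 ∧ (w p.1 β).card = β.length ∧ Agr p.2 (w p.1 β)).card : ℝ)) *
      (2 ^ D * (1 - (1 / 2 : ℝ) ^ k) ^ q) ≤
      bl n e * (univ.filter fun p : Fml n k m × (Fin n → Bool) =>
        Dist p.1 ∧ Sat p.1 p.2).card := by
    rw [Finset.sum_mul]
    refine (Finset.sum_le_card_nsmul _ _ _ h4).trans ?_
    rw [nsmul_eq_mul]
    refine mul_le_mul_of_nonneg_right ?_ (Nat.cast_nonneg _)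
    exact_mod_cast (card_LB D e).trans (bl_mono hD e)
  calc _ ≤ (N * ∑ β ∈ LB D e, ((univ.filter fun p : Fml n k m × (Fin n → Bool) =>
      Dist p.1 ∧ Sat p.1 p.2 ∧ (w p.1 β).card = β.length ∧ Agr p.2 (w p.1 β)).card : ℝ)) *
      (2 ^ D * (1 - (1 / 2 : ℝ) ^ k) ^ q) := mul_le_mul_of_nonneg_right h3 hX
    _ = N * ((∑ β ∈ LB D e, ((univ.filter fun p : Fml n k m × (Fin n → Bool) =>
      Dist p.1 ∧ Sat p.1 p.2 ∧ (w p.1 β).card = β.length ∧ Agr p.2 (w p.1 β)).card : ℝ)) *
      (2 ^ D * (1 - (1 / 2 : ℝ) ^ k) ^ q)) := by ring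
    _ ≤ N * (bl n e * (univ.filter fun p : Fml n k m × (Fin n → Bool) =>
        Dist p.1 ∧ Sat p.1 p.2).card) := mul_le_mul_of_nonneg_left h5 hN
    _ = _ := by ring

end Pool.Agent.H74.PL
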