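import Pool.Agent.H28.PL.DefsJ

/-!
# Primitive parts of the Pell numbers (MP_cd3997_nt): row JI

Incomparable indices.
-/

set_option autoImplicit false

open Finset

namespace Pool.Agent.H74.PL

open Pool.Agent.H28.PL

theorem pe_pos : ∀ n : ℕ, 0 < pe (n + 1)
  | 0 => by simp [pe]
  | n + 1 => by
    have h := pe_pos n
    show 0 < 2 * pe (n + 1) + pe n
    omega

theorem L_ne {L : ℕ → ℕ} (hL : PP L) {r : ℕ} (hr : 0 < r) : L r ≠ 0 := by
  intro h
  have h1 := hL r hr
  rw [Finset.prod_eq_zero (Nat.mem_divisors_self r hr.ne') h] at h1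
  obtain ⟨s, rfl⟩ : ∃ s, r = s + 1 := ⟨r - 1, by omega⟩
  have := pe_pos s
  omega

theorem jac_prod_left {ι : Type} (s : Finset ι) (f : ι → ℤ) (b : ℕ) :
    jacobiSym (∏ i ∈ s, f i) b = ∏ i ∈ s, jacobiSym (f i) b := by
  classical
  induction s using Finset.induction_on with
  | empty => simp [jacobiSym.one_left]
  | insert a s ha ih => rw [Finset.prod_insert ha, Finset.prod_insert ha, jacobiSym.mul_left, ih]

theorem jac_prod_right {ι : Type} (a : ℤ) (s : Finset ι) (f : ι → ℕ) (hf : ∀ i ∈ s, f i ≠ 0) :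
    jacobiSym a (∏ i ∈ s, f i) = ∏ i ∈ s, jacobiSym a (f i) := by
  classical
  induction s using Finset.induction_on with
  | empty => simp [jacobiSym.one_right]
  | insert x s hx ih =>
    have h1 : ∀ i ∈ s, f i ≠ 0 := fun i hi => hf i (Finset.mem_insert_of_mem hi)
    rw [Finset.prod_insert hx, Finset.prod_insert hx, jacobiSym.mul_right' a
      (hf x (Finset.mem_insert_self _ _)) (Finset.prod_ne_zero_iff.2 h1), ih h1]

/-- the ratio as a product -/
theorem ratio (hp : T_JP) {L : ℕ → ℕ} (hL : PP L) (c g n : ℕ) (hg : Odd g) (hn : Odd n)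
    (hgn : g ∣ n) : AA c n / AA c g = ∏ d ∈ n.divisors \ g.divisors, L (2 ^ c * d) := by
  have hn0 : n ≠ 0 := by
    rintro rfl
    exact absurd hn (by decide)
  have hsub : g.divisors ⊆ n.divisors := Nat.divisors_subset_of_dvd hn0 hgn
  have h0 : ∏ d ∈ g.divisors, L (2 ^ c * d) ≠ 0 := by
    refine Finset.prod_ne_zero_iff.2 fun d hd => L_ne hL ?_
    have := Nat.pos_of_mem_divisors hd
    positivity
  rw [← hp L hL c n hn, ← hp L hL c g hg, ← Finset.prod_sdiff hsub]
  exact Nat.mul_div_cancel _ (Nat.pos_of_ne_zero h0)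

theorem pf_JI (he : T_EUC) (hd : T_ADV) (hu : T_JRU) (hv : T_JRV) (hp : T_JP) : T_JI := by
  classical
  have _ := hd
  intro L hL c n m hc hn hm
  obtain ⟨N, hN⟩ : ∃ N, n + m = N := ⟨_, rfl⟩
  induction N using Nat.strong_induction_on generalizing n m with
  | _ N ih =>
  intro hnm hmn
  set g := Nat.gcd n m with hg
  have hn0 : 0 < n := hn.pos
  have hm0 : 0 < m := hm.pos
  have hg0 : 0 < g := Nat.gcd_pos_of_pos_left _ hn0
  obtain ⟨a, ha⟩ : g ∣ n := Nat.gcd_dvd_left n m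
  obtain ⟨b, hb⟩ : g ∣ m := Nat.gcd_dvd_right n m
  have hao : Odd a ∧ Odd g := by
    rw [ha, Nat.odd_mul] at hn
    exact ⟨hn.2, hn.1⟩
  have hbo : Odd b := by
    rw [hb, Nat.odd_mul] at hm
    exact hm.2
  have hcop : Nat.Coprime a b := by
    have h1 := Nat.coprime_div_gcd_div_gcd hg0
    rw [← hg] at h1
    have h2 : n / g = a := Nat.div_eq_of_eq_mul_right hg0 ha
    have h3 : m / g = b := Nat.div_eq_of_eq_mul_right hg0 hb
    rwa [h2, h3] at h1
  have hE : Euc (fun k => AA c (g * k) / AA c g) := by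
    rcases Nat.eq_zero_or_pos c with h | h
    · rw [h]
      exact hu g hao.2
    · exact hv c g (by omega) hao.2
  have key := he _ hE a b hao.1 hbo hcop
  rw [← ha, ← hb, ratio hp hL c g n hao.2 hn ⟨a, ha⟩, ratio hp hL c g m hao.2 hm ⟨b, hb⟩,
    Nat.cast_prod, jac_prod_left] at key
  have hexp : ∀ d ∈ n.divisors \ g.divisors,
      jacobiSym ((L (2 ^ c * d) : ℕ) : ℤ) (∏ e ∈ m.divisors \ g.divisors, L (2 ^ c * e)) =
      ∏ e ∈ m.divisors \ g.divisors, jacobiSym ((L (2 ^ c * d) : ℕ) : ℤ) (L (2 ^ c * e)) := by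
    intro d _
    refine jac_prod_right _ _ _ fun e he' => L_ne hL ?_
    have := Nat.pos_of_mem_divisors (Finset.mem_sdiff.1 he').1
    positivity
  rw [Finset.prod_congr rfl hexp] at key
  have hnD : n ∈ n.divisors \ g.divisors := by
    rw [Finset.mem_sdiff]
    refine ⟨Nat.mem_divisors_self n hn0.ne', fun h => hnm ?_⟩
    exact (Nat.dvd_of_mem_divisors h).trans (Nat.gcd_dvd_right n m)
  have hmE : m ∈ m.divisors \ g.divisors := by
    rw [Finset.mem_sdiff]
    refine ⟨Nat.mem_divisors_self m hm0.ne', fun h => hmn ?_⟩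
    exact (Nat.dvd_of_mem_divisors h).trans (Nat.gcd_dvd_left n m)
  have hpair : ∀ d ∈ n.divisors \ g.divisors, ∀ e ∈ m.divisors \ g.divisors,
      (d ≠ n ∨ e ≠ m) → jacobiSym ((L (2 ^ c * d) : ℕ) : ℤ) (L (2 ^ c * e)) = 1 := by
    intro d hd' e he' hne
    obtain ⟨h1, h2⟩ := Finset.mem_sdiff.1 hd'
    obtain ⟨h3, h4⟩ := Finset.mem_sdiff.1 he'
    have hdn := Nat.dvd_of_mem_divisors h1
    have hem := Nat.dvd_of_mem_divisors h3
    have hdg : ¬ d ∣ g := fun h => h2 (Nat.mem_divisors.2 ⟨h, hg0.ne'⟩)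
    have heg : ¬ e ∣ g := fun h => h4 (Nat.mem_divisors.2 ⟨h, hg0.ne'⟩)
    have hdle := Nat.le_of_dvd hn0 hdn
    have hele := Nat.le_of_dvd hm0 hem
    refine ih (d + e) ?_ d e (hn.of_dvd_nat hdn) (hm.of_dvd_nat hem) rfl ?_ ?_
    · rcases hne with h | h <;> omega
    · exact fun h => hdg (Nat.dvd_gcd hdn (h.trans hem))
    · exact fun h => heg (Nat.dvd_gcd (h.trans hdn) hem)
  rw [Finset.prod_eq_single_of_mem n hnD (fun d hd' hne => Finset.prod_eq_one fun e he' =>
    hpair d hd' e he' (Or.inl hne)), Finset.prod_eq_single_of_mem m hmE (fun e he' hne =>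
    hpair n hnD e he' (Or.inr hne))] at key
  exact key

end Pool.Agent.H74.PL
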