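import Pool.Agent.H8.PL.Targets
import Pool.Agent.H69.Mt.Def

/-! # P2: the equivalence -/

set_option autoImplicit false

namespace Pool.Agent.H74.PL

open Pool.Agent.H8.PL Pool.Agent.H69.Sp Pool.Agent.H69.Mt Pool.Agent.H16.TO

theorem pf_p2 (hP1 : Z_P1) (hSP : Z_SP) (hPB : Z_PB) : Z_P2 := by
  constructor
  · intro h φ
    exact h _ (hSP φ)
  · intro h S hS
    obtain ⟨φ, r, hr, h1⟩ := hP1 S hS
    have hX := hPB _ (h φ) r hr
    set X : Set ℕ := {n | 4 ≤ n ∧ 2 * (n ^ r - 1) ^ 2 + 2 ∈ posCompl (specP φ)} with hXdef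
    have hX4 : ∀ n, 4 ≤ n → (n ∈ X ↔ n ∉ S) := by
      intro n hn
      rw [h1 n hn]
      constructor
      · rintro ⟨_, h2⟩
        exact h2.2
      · intro h2
        exact ⟨hn, by omega, h2⟩
    refine wrap (P := fun N E v => v 0 ∈ X ∨ ((v 0 = 2 ∧ 2 ∉ S) ∨ (v 0 = 3 ∧ 3 ∉ S)))
      ((mem_ed hX 0).or (((FD.num 2 0).and (FD.const (2 ∉ S))).or
        ((FD.num 3 0).and (FD.const (3 ∉ S)))).ed) (fun h0 => absurd h0.1 (lt_irrefl 0)) ?_
    intro n hn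
    simp only [Function.update_self, exists_const_iff]
    constructor
    · rintro ⟨_, h2⟩
      refine ⟨⟨fun _ _ => False⟩, ?_⟩
      by_cases h4 : 4 ≤ n
      · exact Or.inl ((hX4 n h4).2 h2)
      · have : n = 2 ∨ n = 3 := by omega
        rcases this with rfl | rfl
        · exact Or.inr (Or.inl ⟨rfl, h2⟩)
        · exact Or.inr (Or.inr ⟨rfl, h2⟩)
    · rintro ⟨_, h2 | ⟨rfl, h2⟩ | ⟨rfl, h2⟩⟩
      · exact ⟨by omega, (hX4 n h2.1).1 h2⟩
      · exact ⟨by norm_num, h2⟩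
      · exact ⟨by norm_num, h2⟩

end Pool.Agent.H74.PL
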