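import Pool.Agent.H8.PL.Targets
import Pool.Agent.H69.Mt.Norm
import Pool.Agent.H3.TW.BR

/-! # SP: planar spectra are spectra -/

set_option autoImplicit false

namespace Pool.Agent.H74.PL

open Pool.Agent.H8.PL Pool.Agent.H69.Sp Pool.Agent.H69.Mt Pool.Agent.H16.TO

lemma plc_congr {n : ℕ} {A B : ℕ → ℕ → Prop} (h : ∀ a < n, ∀ b < n, (A a b ↔ B a b))
    {pos fid : ℕ → ℕ → ℕ} {rt : ℕ → Prop} {rk : ℕ → ℕ} (hA : PlC n A pos fid rt rk) :
    PlC n B pos fid rt rk where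
  pi := fun a ha b hb b' hb' h1 h2 =>
    hA.pi a ha b hb b' hb' ((h a ha b hb).2 h1) ((h a ha b' hb').2 h2)
  ps := fun a ha b hb h1 h2 => by
    obtain ⟨b', hb', h3, h4⟩ := hA.ps a ha b hb ((h a ha b hb).2 h1) h2
    exact ⟨b', hb', (h a ha b' hb').1 h3, h4⟩
  fi := fun a ha b hb c hc h1 => by
    refine hA.fi a ha b hb c hc ⟨(h a ha b hb).2 h1.1, (h a ha c hc).2 h1.2.1, ?_⟩
    rcases h1.2.2 with h2 | ⟨h2, h3⟩
    · exact Or.inl h2
    · exact Or.inr ⟨h2, fun c' hc' h4 => h3 c' hc' ((h a ha c' hc').1 h4)⟩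
  ro := fun a ha ⟨b, hb, h1⟩ => by
    rcases hA.ro a ha ⟨b, hb, (h a ha b hb).2 h1⟩ with h2 | ⟨b', hb', h2, h3⟩
    · exact Or.inl h2
    · exact Or.inr ⟨b', hb', (h a ha b' hb').1 h2, h3⟩
  co := by
    have h1 : {p : ℕ × ℕ | p.1 < p.2 ∧ p.2 < n ∧ A p.1 p.2} =
        {p : ℕ × ℕ | p.1 < p.2 ∧ p.2 < n ∧ B p.1 p.2} := by
      ext p
      simp only [Set.mem_ofPred_eq]
      constructor
      · rintro ⟨h2, h3, h4⟩
        exact ⟨h2, h3, (h _ (h2.trans h3) _ h3).1 h4⟩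
      · rintro ⟨h2, h3, h4⟩
        exact ⟨h2, h3, (h _ (h2.trans h3) _ h3).2 h4⟩
    have h2 : {a | a < n ∧ rt a ∧ ∃ b < n, A a b} = {a | a < n ∧ rt a ∧ ∃ b < n, B a b} := by
      ext a
      simp only [Set.mem_ofPred_eq]
      constructor
      · rintro ⟨h2, h3, b, hb, h4⟩
        exact ⟨h2, h3, b, hb, (h a h2 b hb).1 h4⟩
      · rintro ⟨h2, h3, b, hb, h4⟩
        exact ⟨h2, h3, b, hb, (h a h2 b hb).2 h4⟩
    have h3 : {a | a < n ∧ ∃ b < n, A a b} = {a | a < n ∧ ∃ b < n, B a b} := by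
      ext a
      simp only [Set.mem_ofPred_eq]
      constructor
      · rintro ⟨h2, b, hb, h4⟩
        exact ⟨h2, b, hb, (h a h2 b hb).1 h4⟩
      · rintro ⟨h2, b, hb, h4⟩
        exact ⟨h2, b, hb, (h a h2 b hb).2 h4⟩
    have h4 : {k | ∃ a < n, ∃ b < n, A a b ∧ fid a b = k} =
        {k | ∃ a < n, ∃ b < n, B a b ∧ fid a b = k} := by
      ext k
      simp only [Set.mem_ofPred_eq]
      constructor
      · rintro ⟨a, ha, b, hb, h5, h6⟩
        exact ⟨a, ha, b, hb, (h a ha b hb).1 h5, h6⟩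
      · rintro ⟨a, ha, b, hb, h5, h6⟩
        exact ⟨a, ha, b, hb, (h a ha b hb).2 h5, h6⟩
    rw [← h1, ← h2, ← h3, ← h4]
    exact hA.co

/-- the relations of the structure -/
def Qf (φ : C2) (E : ℕ → List ℕ → Prop) (m : ℕ) : Prop :=
  (∀ a, a < m → ∀ b, b < m → E 1 [a, b] → E 1 [b, a]) ∧ (∀ a, a < m → ¬ E 1 [a, a]) ∧
    ∀ a, a < m → ∀ b, b < m → φ.SatN m (fun i a => E (2 * i) [a]) (fun _ a b => E 1 [a, b])
      (fun w => if w then b else a)

lemma fd_qf (hSR : Z_SR) (φ : C2) : FD (fun _ E v => Qf φ E (v 1)) := by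
  have h1 : FD (fun N E v => ∀ a, a < N → ∀ b, b < N → (a < v 2 → b < v 2 →
      (E 1 [a, b] → E 1 [b, a]))) :=
    (FD.all 0 (FD.all 1 ((FD.lt 0 2).imp ((FD.lt 1 2).imp ((FD.par 1 [0, 1]).imp
      (FD.par 1 [1, 0])))))).congr fun N E v _ => by
        simp [Function.update_of_ne, Function.update_self]
  have h2 : FD (fun N E v => ∀ a, a < N → (a < v 2 → ¬ E 1 [a, a])) :=
    (FD.all 0 ((FD.lt 0 2).imp (FD.par 1 [0, 0]).not)).congr fun N E v _ => by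
        simp [Function.update_of_ne, Function.update_self]
  have h3 : FD (fun N E v => ∀ a, a < N → ∀ b, b < N → (a < v 2 → b < v 2 →
      φ.SatN (v 2) (fun i a => E (2 * i) [a]) (fun _ a b => E 1 [a, b])
      (fun w => if w then b else a))) := by
    refine (FD.all 0 (FD.all 1 ((FD.lt 0 2).imp ((FD.lt 1 2).imp (hSR φ))))).congr
      fun N E v _ => ?_
    simp only [Function.update_self, Function.update_of_ne, ne_eq, OfNat.ofNat_ne_zero,
      OfNat.ofNat_ne_one, not_false_eq_true, zero_ne_one]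
  have h4 := FD.ex 2 ((FD.eq 2 1).and (h1.and (h2.and h3)))
  refine h4.congr fun N E v hv => ?_
  simp only [Function.update_self, Function.update_of_ne, ne_eq, OfNat.one_ne_ofNat,
    not_false_eq_true]
  constructor
  · rintro ⟨c, hc, rfl, g1, g2, g3⟩
    exact ⟨fun a ha b hb => g1 a (ha.trans hc) b (hb.trans hc) ha hb,
      fun a ha => g2 a (ha.trans hc) ha,
      fun a ha b hb => g3 a (ha.trans hc) b (hb.trans hc) ha hb⟩
  · rintro ⟨g1, g2, g3⟩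
    exact ⟨v 1, hv 1, rfl, fun a _ b _ ha hb => g1 a ha b hb, fun a _ ha => g2 a ha,
      fun a _ b _ ha hb => g3 a ha b hb⟩

theorem pf_sp (hQ1 : Z_Q1) (hQ2 : Z_Q2) (hPD : Z_PD) (hSR : Z_SR) : Z_SP := by
  classical
  intro φ
  refine wrapT (P := fun N E m => (2 * (m * m) + 4 * m + 4 < N ∧
    ∃ (pos fid : ℕ → ℕ → ℕ) (rt : ℕ → Prop) (rk : ℕ → ℕ), (∀ a b, pos a b ≤ m) ∧
      (∀ a b, fid a b ≤ m * m) ∧ (∀ a, rk a ≤ m) ∧
        PlC m (fun a b => E 1 [a, b]) pos fid rt rk) ∧ Qf φ E m)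
    (ED.and hPD (fd_qf hSR φ).ed) (fun h => absurd h.1 (lt_irrefl 0)) 0 ?_
  intro m hm
  rw [pow_zero, pow_one]
  have hN : 2 * (m * m) + 4 * m + 4 < m ^ 8 := by
    have h1 : m ^ 8 = m ^ 2 * m ^ 6 := by ring
    have h2 : 2 ^ 6 ≤ m ^ 6 := Nat.pow_le_pow_left hm 6
    have h3 : m ^ 2 * 2 ^ 6 ≤ m ^ 2 * m ^ 6 := Nat.mul_le_mul_left _ h2
    nlinarith
  constructor
  · rintro ⟨_, P, G, hG, hs⟩
    set E : ℕ → List ℕ → Prop := fun k l =>
      if k % 2 = 0 then ∃ (c : ℕ) (h : c < m), l = [c] ∧ P (k / 2) ⟨c, h⟩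
      else ∃ (c d : ℕ) (hc : c < m) (hd : d < m), l = [c, d] ∧ G.Adj ⟨c, hc⟩ ⟨d, hd⟩ with hE
    have e1 : ∀ a b, E 1 [a, b] ↔ ∃ (hc : a < m) (hd : b < m), G.Adj ⟨a, hc⟩ ⟨b, hd⟩ := by
      intro a b
      rw [hE]
      simp only [Nat.one_mod, one_ne_zero, if_false]
      constructor
      · rintro ⟨c, d, hc, hd, h1, h2⟩
        simp only [List.cons.injEq, and_true] at h1
        obtain ⟨rfl, rfl⟩ := h1
        exact ⟨hc, hd, h2⟩
      · rintro ⟨hc, hd, h2⟩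
        exact ⟨a, b, hc, hd, rfl, h2⟩
    have e2 : ∀ i a, E (2 * i) [a] ↔ ∃ h : a < m, P i ⟨a, h⟩ := by
      intro i a
      rw [hE]
      simp only [Nat.mul_mod_right, if_true, Nat.mul_div_cancel_left i (by norm_num : 0 < 2)]
      constructor
      · rintro ⟨c, hc, h1, h2⟩
        simp only [List.cons.injEq, and_true] at h1
        subst h1
        exact ⟨hc, h2⟩
      · rintro ⟨hc, h2⟩
        exact ⟨a, hc, rfl, h2⟩
    have hsym : ∀ a b, E 1 [a, b] → E 1 [b, a] := by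
      intro a b h
      rw [e1] at h ⊢
      obtain ⟨hc, hd, h⟩ := h
      exact ⟨hd, hc, h.symm⟩
    have hirr : ∀ a, ¬ E 1 [a, a] := by
      intro a h
      rw [e1] at h
      obtain ⟨_, _, h⟩ := h
      exact G.loopless.irrefl _ h
    have hGr : gr m (fun a b => E 1 [a, b]) hsym hirr = G := by
      ext a b
      change E 1 [a.1, b.1] ↔ _
      rw [e1]
      exact ⟨fun ⟨_, _, h⟩ => h, fun h => ⟨a.2, b.2, h⟩⟩
    obtain ⟨pos, fid, rt, rk, g1, g2, g3, g4⟩ :=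
      hQ1 m (fun a b => E 1 [a, b]) hsym hirr (by rw [hGr]; exact hG)
    refine ⟨E, ⟨hN, pos, fid, rt, rk, g1, g2, g3, g4⟩, fun a _ b _ => hsym a b,
      fun a _ => hirr a, ?_⟩
    intro a ha b hb
    have h1 := (Pool.Agent.H3.TW.br_sat (n := m) (fun i a => E (2 * i) [a])
      (fun _ a b => E 1 [a, b]) φ (fun w => if w then ⟨b, hb⟩ else ⟨a, ha⟩)).1
    have h2 : (fun w : Bool => ((if w then (⟨b, hb⟩ : Fin m) else ⟨a, ha⟩ : Fin m) : ℕ)) =
        fun w => if w then b else a := by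
      funext w
      cases w <;> rfl
    rw [h2] at h1
    apply h1
    have h3 : (fun (i : ℕ) (a : Fin m) => E (2 * i) [a.val]) = P := by
      funext i a
      apply propext
      rw [e2]
      exact ⟨fun ⟨_, h⟩ => h, fun h => ⟨a.2, h⟩⟩
    have h4 : (fun (_ : ℕ) (a b : Fin m) => E 1 [a.val, b.val]) = fun _ => G.Adj := by
      funext i a b
      apply propext
      rw [e1]
      exact ⟨fun ⟨_, _, h⟩ => h, fun h => ⟨a.2, b.2, h⟩⟩
    rw [h3, h4]
    exact hs _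
  · rintro ⟨E, ⟨_, pos, fid, rt, rk, _, _, _, g4⟩, g5, g6, g7⟩
    have hsym : ∀ a b, (a < m ∧ b < m ∧ E 1 [a, b]) → (b < m ∧ a < m ∧ E 1 [b, a]) :=
      fun a b ⟨h1, h2, h3⟩ => ⟨h2, h1, g5 a h1 b h2 h3⟩
    have hirr : ∀ a, ¬ (a < m ∧ a < m ∧ E 1 [a, a]) := fun a ⟨h1, _, h3⟩ => g6 a h1 h3
    refine ⟨by omega, fun i a => E (2 * i) [a.val],
      gr m (fun a b => a < m ∧ b < m ∧ E 1 [a, b]) hsym hirr,
      hQ2 m _ hsym hirr pos fid rt rk (plc_congr (fun a ha b hb =>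
        ⟨fun h => ⟨ha, hb, h⟩, fun h => h.2.2⟩) g4), ?_⟩
    intro s
    have h1 := g7 (s false).1 (s false).2 (s true).1 (s true).2
    have h2 : (fun w : Bool => if w then (s true).1 else (s false).1) = fun w => (s w).1 := by
      funext w
      cases w <;> rfl
    rw [h2] at h1
    have h3 := (Pool.Agent.H3.TW.br_sat (n := m) (fun i a => E (2 * i) [a])
      (fun _ a b => E 1 [a, b]) φ s).2 h1
    have h4 : (fun (_ : ℕ) => (gr m (fun a b => a < m ∧ b < m ∧ E 1 [a, b]) hsym hirr).Adj) =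
        fun (_ : ℕ) (a b : Fin m) => E 1 [a.val, b.val] := by
      funext i a b
      apply propext
      change (a.1 < m ∧ b.1 < m ∧ E 1 [a.1, b.1]) ↔ _
      exact ⟨fun h => h.2.2, fun h => ⟨a.2, b.2, h⟩⟩
    rw [h4]
    exact h3

end Pool.Agent.H74.PL
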